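import Pool.Graph.R_pool_sql_team_seeded_2aa45f1a.Q91.LB.Fp

/-!
# Isoperimetry of domains in the coverings of a counterexample to the Singer conjecture

Let `M` be the chain complex of the universal covering of a closed aspherical `n`-manifold with
fundamental group `G` (or any resolution of `ℂ` by finitely generated free modules over the group
algebra of `G`, zero above degree `n`, with Poincaré duality of formal dimension `n`).

For a subgroup `H` of `G` the finite subsets `F` of `G / H` are thought of as compact domains in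
the covering with group `H` (a union of `|F|` fundamental domains); `rim S F` is the set of the
elements of `F` which are moved out of `F` by an element of the finite set `S`.  If `F` is
connected and `K ≤ H` is the image of its fundamental group then `F` lifts to the covering with
group `K`; this is `Lifts S H K F`.

(1) There are a finite set `S` and a constant `C` which depend only on `M` such that
`|F| * b_k(M) ≤ b_k(M_K) + C * |rim S F|` for ALL subgroups `K`, all finite subsets `F` of `G / K`
and all `k` (`b_k(M_K)` is the `L²`-Betti number, over `K`, of the covering with group `K`).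

(2) If the Singer conjecture fails for `M`, then there are a finite set `S` and a constant `c > 0`
such that the linear isoperimetric inequality `c * |F| ≤ |rim S F|` holds for all domains `F`
in all coverings of `M` which lift to a covering with group `K` such that for every `k < n / 2`
one of `b_k(M_K)`, `b_{n-k}(M_K)` is zero; for instance if the image of the fundamental group of
the domain has cohomological dimension at most `n / 2` (over `ℂ`; second part of the theorem), or
if it is infinite amenable (by a theorem of Cheeger and Gromov which is not proved here).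

(3) Consequently a domain (for instance a whole finite covering) with `|F|` fundamental domains
cannot be cut, along less than `c * |F|` fundamental domains, into pieces with such fundamental
groups: the colouring `f` describes the pieces.

Conversely, a sequence of domains or of decompositions of finite coverings which violates these
inequalities proves the Singer conjecture for `M`.  For one co-amenable subgroup `K` in the place
of all subgroups this is the theorem `CoamenableDuality` of the library.

(4) As an example: if `G` has a co-amenable subgroup `H` all of whose FINITELY GENERATED subgroups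
`K` are small in this sense, for instance of cohomological dimension at most `n / 2` over `ℂ`, then
the `L²`-Betti numbers of `M` vanish outside the middle dimension. `H` itself may be infinitely
generated and of cohomological dimension greater than `n / 2` (a countable group all of whose
finitely generated subgroups have cohomological dimension at most `d` can have cohomological
dimension `d + 1`). The domains are Følner sets in `G / H`; each of them lifts to the covering with
group `K` generated by finitely many elements of `H`.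
-/

set_option autoImplicit false

universe u

namespace Pool.Agent.Results.MP_f80465_gt.DomainsInCoverings

open Pool.Agent.Q91.LB Pool.Agent.Q91.LB.Bet Pool.Agent.Q91.LB.Cpx

/-- The assertion of the Singer conjecture for the complex `M` of formal dimension `n`: the
`L²`-Betti numbers vanish outside the middle dimension. -/
def Singer {G : Type u} [Group G] (M : Cx G) (n : ℕ) : Prop :=
  ∀ k, 2 * k ≠ n → b M k = 0

/-- The elements of `F` which are moved out of `F` by an element of `S`. -/
def rim {G : Type u} [Group G] {H : Subgroup G} (S : Finset G) (F : Finset (G ⧸ H)) :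
    Set (G ⧸ H) :=
  {x | x ∈ F ∧ ∃ s ∈ S, s • x ∉ F}

/-- The domain `F` in the covering with group `H` lifts to the covering with group `K`: there is a
map `σ` which takes every `x` in `F` to a coset of `K` contained in `x` and is compatible with the
action of the elements of `S` within `F`. -/
def Lifts {G : Type u} [Group G] (S : Finset G) (H K : Subgroup G) (F : Finset (G ⧸ H)) : Prop :=
  ∃ σ : G ⧸ H → G ⧸ K, (∀ x ∈ F, ∀ g : G, σ x = (g : G ⧸ K) → x = (g : G ⧸ H)) ∧
    ∀ x ∈ F, ∀ s ∈ S, s • x ∈ F → σ (s • x) = s • σ x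

/-- For every `k < n / 2` the `L²`-Betti number over `K` of the covering with group `K` vanishes
in degree `k` or in degree `n - k`. -/
def HalfVanishing {G : Type u} [Group G] (K : Subgroup G) (r : G ⧸ K → G) (M : Cx G) (n : ℕ) :
    Prop :=
  ∀ k, 2 * k < n → bK K r M k = 0 ∨ bK K r M (n - k) = 0

section
variable {G : Type u} [Group G]

theorem rim_mono {H : Subgroup G} {S S' : Finset G} (h : S ⊆ S') (F : Finset (G ⧸ H)) :
    (rim S F).ncard ≤ (rim S' F).ncard := by
  refine Set.ncard_le_ncard ?_ ((Finset.finite_toSet F).subset (fun x hx => hx.1))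
  rintro x ⟨hx, s, hs, hsx⟩
  exact ⟨hx, s, h hs, hsx⟩

theorem outer_le {m n : ℕ} (A : Fin m → Fin n → (G →₀ ℂ)) : ∃ S : Finset G,
    ∀ (K : Subgroup G) (F : Finset (G ⧸ K)),
      ((outer K A F).ncard : ℝ) ≤ (suppM A).card * (rim S F).ncard := by
  classical
  refine ⟨(suppM A ×ˢ suppM A).image fun p => p.1⁻¹ * p.2, fun K F => ?_⟩
  set S1 : Finset G := (suppM A ×ˢ suppM A).image fun p => p.1⁻¹ * p.2 with hS1
  set Q : Finset (G ⧸ K) := F.filter fun x => ∃ s ∈ S1, s • x ∉ F with hQ
  have hQn : (rim S1 F).ncard = Q.card := by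
    rw [← Set.ncard_coe_finset]
    congr 1
    ext x
    rw [Finset.mem_coe, hQ, Finset.mem_filter]
    rfl
  rw [hQn]
  have h1 : outer K A F ⊆ ((suppM A ×ˢ Q).image fun p => p.1 • p.2 : Finset (G ⧸ K)) := by
    rintro y ⟨⟨s, hs, hsF⟩, s', hs', hsF'⟩
    rw [Finset.mem_coe, Finset.mem_image]
    refine ⟨(s, s⁻¹ • y), Finset.mem_product.2 ⟨(mem_suppM A s).2 hs, Finset.mem_filter.2 ⟨hsF,
      s'⁻¹ * s, Finset.mem_image.2 ⟨(s', s), Finset.mem_product.2 ⟨(mem_suppM A s').2 hs',
        (mem_suppM A s).2 hs⟩, rfl⟩, ?_⟩⟩, smul_inv_smul s y⟩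
    rw [mul_smul, smul_inv_smul]
    exact hsF'
  have h2 : (outer K A F).ncard ≤ (suppM A).card * Q.card := by
    refine (Set.ncard_le_ncard h1 (Finset.finite_toSet _)).trans ?_
    rw [Set.ncard_coe_finset]
    refine Finset.card_image_le.trans ?_
    rw [Finset.card_product]
  exact_mod_cast h2

/-- the uniform inequality in one degree -/
theorem one_degree {m n p : ℕ} (A : Fin m → Fin n → (G →₀ ℂ)) (B : Fin n → Fin p → (G →₀ ℂ)) :
    ∃ (S : Finset G) (C : ℝ), 0 ≤ C ∧ ∀ (K : Subgroup G) (r : G ⧸ K → G),
      (∀ x, (r x : G ⧸ K) = x) → ∀ F : Finset (G ⧸ K), bettiCover K r A B ≠ ⊤ →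
        F.card * betti A B ≤ (bettiCover K r A B).toReal + C * (rim S F).ncard := by
  obtain ⟨S, hS⟩ := outer_le A
  refine ⟨S, m * (suppM A).card, by positivity, fun K r hr F hfin => ?_⟩
  have h3 : F.card * betti A B - m * (outer K A F).ncard ≤ (bettiCover K r A B).toReal :=
    (ENNReal.ofReal_le_iff_le_toReal hfin).1 (cover_ge K r hr A B F)
  have h4 : (m : ℝ) * (outer K A F).ncard ≤ m * ((suppM A).card * (rim S F).ncard) :=
    mul_le_mul_of_nonneg_left (hS K F) (by positivity)
  linarith

theorem one_degree' (M : Cx G) (k : ℕ) :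
    ∃ (S : Finset G) (C : ℝ), 0 ≤ C ∧ ∀ (K : Subgroup G) (r : G ⧸ K → G),
      (∀ x, (r x : G ⧸ K) = x) → ∀ F : Finset (G ⧸ K), bK K r M k ≠ ⊤ →
        F.card * b M k ≤ (bK K r M k).toReal + C * (rim S F).ncard := by
  cases k with
  | zero => exact one_degree _ _
  | succ k => exact one_degree _ _

/-- the uniform inequality in all degrees -/
theorem all_degrees (M : Cx G) (n : ℕ) (hn : ∀ k, n < k → M.c k = 0) :
    ∃ (S : Finset G) (C : ℝ), 0 ≤ C ∧ ∀ (K : Subgroup G) (r : G ⧸ K → G),
      (∀ x, (r x : G ⧸ K) = x) → ∀ (F : Finset (G ⧸ K)) (k : ℕ), bK K r M k ≠ ⊤ →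
        F.card * b M k ≤ (bK K r M k).toReal + C * (rim S F).ncard := by
  classical
  choose S C hC h using one_degree' M
  refine ⟨(Finset.range (n + 1)).biUnion S, ∑ k ∈ Finset.range (n + 1), C k,
    Finset.sum_nonneg (fun k _ => hC k), fun K r hr F k hfin => ?_⟩
  by_cases hk : n < k
  · rw [b_of_zero M k (hn k hk), mul_zero]
    have := Finset.sum_nonneg (fun k (_ : k ∈ Finset.range (n + 1)) => hC k)
    positivity
  · have hk' : k ∈ Finset.range (n + 1) := Finset.mem_range.2 (by omega)
    refine (h k K r hr F hfin).trans ?_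
    have h1 : ((rim (S k) F).ncard : ℝ) ≤ (rim ((Finset.range (n + 1)).biUnion S) F).ncard := by
      exact_mod_cast rim_mono (Finset.subset_biUnion_of_mem S hk') F
    have h2 : C k ≤ ∑ k ∈ Finset.range (n + 1), C k :=
      Finset.single_le_sum (fun k _ => hC k) hk'
    have h3 : C k * (rim (S k) F).ncard ≤ (∑ k ∈ Finset.range (n + 1), C k) *
        (rim ((Finset.range (n + 1)).biUnion S) F).ncard :=
      mul_le_mul h2 h1 (by positivity) ((hC k).trans h2)
    linarith

open Classical in
theorem rim_lift {S : Finset G} {H K : Subgroup G} {F : Finset (G ⧸ H)} (hF : Lifts S H K F) :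
    ∃ F' : Finset (G ⧸ K), F'.card = F.card ∧ (rim S F').ncard ≤ (rim S F).ncard := by
  obtain ⟨σ, h1, h2⟩ := hF
  have hinj : Set.InjOn σ F := by
    intro x hx y hy hxy
    obtain ⟨g, hg⟩ := QuotientGroup.mk_surjective (σ x)
    rw [h1 x hx g hg.symm, h1 y hy g (hxy ▸ hg.symm)]
  refine ⟨F.image σ, Finset.card_image_of_injOn hinj, ?_⟩
  have hsub : rim S (F.image σ) ⊆ σ '' rim S F := by
    rintro y ⟨hy, s, hs, hsy⟩
    obtain ⟨x, hx, rfl⟩ := Finset.mem_image.1 hy
    refine ⟨x, ⟨hx, s, hs, fun hsx => hsy ?_⟩, rfl⟩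
    rw [← h2 x hx s hs hsx]
    exact Finset.mem_image_of_mem _ hsx
  have hfin : (rim S F).Finite := (Finset.finite_toSet F).subset (fun x hx => hx.1)
  exact (Set.ncard_le_ncard hsub (hfin.image σ)).trans (Set.ncard_image_le hfin)

open Classical in
/-- a finite domain lifts to a covering with a finitely generated group -/
theorem exists_lift {H : Subgroup G} (S : Finset G) (F : Finset (G ⧸ H)) :
    ∃ K : Subgroup G, K ≤ H ∧ K.FG ∧ Lifts S H K F := by
  set r : G ⧸ H → G := Quotient.out with hr
  have hrx : ∀ x : G ⧸ H, (r x : G ⧸ H) = x := fun x => Quotient.out_eq x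
  set T : Finset G := (F ×ˢ S).image fun p => (r (p.2 • p.1))⁻¹ * (p.2 * r p.1) with hT
  refine ⟨Subgroup.closure T, ?_, ⟨T, rfl⟩, fun x => ((r x : G) : G ⧸ Subgroup.closure (T : Set G)),
    ?_, ?_⟩
  · rw [Subgroup.closure_le]
    intro g hg
    rw [Finset.mem_coe, hT, Finset.mem_image] at hg
    obtain ⟨p, _, rfl⟩ := hg
    rw [SetLike.mem_coe, ← QuotientGroup.eq, hrx]
    rw [← smul_eq_mul, ← MulAction.Quotient.smul_mk, hrx]
  · intro x _ g hg
    have h1 : (r x)⁻¹ * g ∈ Subgroup.closure (T : Set G) := QuotientGroup.eq.1 hg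
    have h2 : (r x)⁻¹ * g ∈ H := by
      refine (Subgroup.closure_le H).2 ?_ h1
      intro g' hg'
      rw [Finset.mem_coe, hT, Finset.mem_image] at hg'
      obtain ⟨p, _, rfl⟩ := hg'
      rw [SetLike.mem_coe, ← QuotientGroup.eq, hrx]
      rw [← smul_eq_mul, ← MulAction.Quotient.smul_mk, hrx]
    rw [← QuotientGroup.eq, hrx] at h2
    exact h2
  · intro x hx s hs _
    show ((r (s • x) : G) : G ⧸ Subgroup.closure (T : Set G)) =
      s • ((r x : G) : G ⧸ Subgroup.closure (T : Set G))
    rw [MulAction.Quotient.smul_mk, smul_eq_mul, QuotientGroup.eq]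
    exact Subgroup.subset_closure (Finset.mem_coe.2 (Finset.mem_image.2
      ⟨(x, s), Finset.mem_product.2 ⟨hx, hs⟩, rfl⟩))

end

open Classical in
/-- the first three parts of the theorem -/
theorem main {G : Type u} [Group G] (M : Cx G) (n : ℕ) (hn : ∀ k, n < k → M.c k = 0)
    (hM : ∀ k, ExactAt M k) (χ : G →* ℤˣ) (D : Duality M n χ) :
    (∃ (S : Finset G) (C : ℝ), ∀ (K : Subgroup G) (r : G ⧸ K → G),
      (∀ x, (r x : G ⧸ K) = x) → ∀ (F : Finset (G ⧸ K)) (k : ℕ), bK K r M k ≠ ⊤ →
        F.card * b M k ≤ (bK K r M k).toReal + C * (rim S F).ncard) ∧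
    (∀ (K : Subgroup G) (r : G ⧸ K → G), (∀ x, (r x : G ⧸ K) = x) → ∀ j, 2 * (j + 1) ≤ n →
      CyclesSplit K M j → HalfVanishing K r M n) ∧
    (¬ Singer M n → ∃ (S : Finset G) (c : ℝ), 0 < c ∧
      (∀ (H K : Subgroup G) (r : G ⧸ K → G), (∀ x, (r x : G ⧸ K) = x) →
        HalfVanishing K r M n → ∀ F : Finset (G ⧸ H), Lifts S H K F →
          c * F.card ≤ (rim S F).ncard) ∧
      ∀ (H : Subgroup G) (F : Finset (G ⧸ H)) (N : ℕ) (f : G ⧸ H → Fin N)
        (K : Fin N → Subgroup G) (r : ∀ i, G ⧸ K i → G), (∀ i x, (r i x : G ⧸ K i) = x) →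
        (∀ i, HalfVanishing (K i) (r i) M n) →
        (∀ i, Lifts S H (K i) (F.filter fun x => f x = i)) →
          c * F.card ≤
            ({x | x ∈ F ∧ ∃ s ∈ S, s • x ∉ F ∨ f (s • x) ≠ f x} : Set (G ⧸ H)).ncard) := by
  obtain ⟨S, C, hC, hS⟩ := all_degrees M n hn
  refine ⟨⟨S, C, hS⟩, ?_, ?_⟩
  · intro K r hr j hj hc k hk
    right
    obtain ⟨i, hi⟩ : ∃ i, n - k = i + 2 := ⟨n - k - 2, by omega⟩
    rw [hi]
    exact cover_zero_of_split K r hr M j (fun k _ => hM k) hc i (by omega)
  · intro hns
    have hsymm := fun k l (hkl : k + l = n) => duality_eq χ M n hn D k l hkl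
    obtain ⟨k, hk2, hk0⟩ : ∃ k, 2 * k < n ∧ b M k ≠ 0 := by
      by_contra hcon
      push Not at hcon
      apply hns
      intro k hk
      by_cases hkn : n < k
      · exact b_of_zero M k (hn k hkn)
      · by_cases h2 : 2 * k < n
        · exact hcon k h2
        · rw [hsymm k (n - k) (by omega)]
          exact hcon _ (by omega)
    have hb : 0 < b M k := lt_of_le_of_ne (b_nonneg M k) (Ne.symm hk0)
    have hb' : b M (n - k) = b M k := hsymm _ _ (by omega)
    have hc0 : 0 < b M k / (C + 1) := by positivity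
    have key : ∀ (H K : Subgroup G) (r : G ⧸ K → G), (∀ x, (r x : G ⧸ K) = x) →
        HalfVanishing K r M n → ∀ F : Finset (G ⧸ H), Lifts S H K F →
          b M k / (C + 1) * F.card ≤ (rim S F).ncard := by
      intro H K r hr hv F hF
      obtain ⟨F', hF'1, hF'2⟩ := rim_lift hF
      have h1 : F'.card * b M k ≤ C * (rim S F').ncard := by
        rcases hv k hk2 with h | h
        · have := hS K r hr F' k (by rw [h]; exact ENNReal.zero_ne_top)
          rwa [h, ENNReal.toReal_zero, zero_add] at this
        · have := hS K r hr F' (n - k) (by rw [h]; exact ENNReal.zero_ne_top)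
          rwa [h, ENNReal.toReal_zero, zero_add, hb'] at this
      rw [hF'1] at h1
      have h2 : ((rim S F').ncard : ℝ) ≤ (rim S F).ncard := by exact_mod_cast hF'2
      have h3 : (0 : ℝ) ≤ (rim S F).ncard := Nat.cast_nonneg _
      rw [div_mul_eq_mul_div, div_le_iff₀ (by positivity)]
      nlinarith
    refine ⟨S, b M k / (C + 1), hc0, key, ?_⟩
    intro H F N f K r hr hv hL
    have h1 : ∀ i, b M k / (C + 1) * ((F.filter fun x => f x = i).card : ℝ) ≤
        (rim S (F.filter fun x => f x = i)).ncard :=
      fun i => key H (K i) (r i) (hr i) (hv i) _ (hL i)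
    set R : Finset (G ⧸ H) := F.filter fun x => ∃ s ∈ S, s • x ∉ F ∨ f (s • x) ≠ f x with hR
    have hRn : ({x | x ∈ F ∧ ∃ s ∈ S, s • x ∉ F ∨ f (s • x) ≠ f x} : Set (G ⧸ H)).ncard =
        R.card := by
      rw [← Set.ncard_coe_finset]
      congr 1
      ext x
      rw [Finset.mem_coe, hR, Finset.mem_filter]
      rfl
    have h2 : ∀ i, (rim S (F.filter fun x => f x = i)).ncard ≤
        (R.filter fun x => f x = i).card := by
      intro i
      rw [← Set.ncard_coe_finset]
      refine Set.ncard_le_ncard ?_ (Finset.finite_toSet _)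
      rintro x ⟨hx, s, hs, hsx⟩
      rw [Finset.mem_filter] at hx
      rw [Finset.mem_coe, Finset.mem_filter, hR, Finset.mem_filter]
      refine ⟨⟨hx.1, s, hs, ?_⟩, hx.2⟩
      by_contra hcon
      push Not at hcon
      exact hsx (Finset.mem_filter.2 ⟨hcon.1, hcon.2.trans hx.2⟩)
    rw [hRn]
    have e1 : (F.card : ℝ) = ∑ i, ((F.filter fun x => f x = i).card : ℝ) := by
      rw [Finset.card_eq_sum_card_fiberwise (f := f) (t := Finset.univ) (fun x _ => by simp)]
      push_cast
      rfl
    have e2 : (R.card : ℝ) = ∑ i, ((R.filter fun x => f x = i).card : ℝ) := by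
      rw [Finset.card_eq_sum_card_fiberwise (f := f) (t := Finset.univ) (fun x _ => by simp)]
      push_cast
      rfl
    rw [e1, e2, Finset.mul_sum]
    refine Finset.sum_le_sum (fun i _ => (h1 i).trans ?_)
    exact_mod_cast h2 i

open Classical in
/-- **Isoperimetry of domains in the coverings of a counterexample to the Singer conjecture.** -/
theorem result {G : Type u} [Group G] (M : Cx G) (n : ℕ) (hn : ∀ k, n < k → M.c k = 0)
    (hM : ∀ k, ExactAt M k) (χ : G →* ℤˣ) (D : Duality M n χ) :
    (∃ (S : Finset G) (C : ℝ), ∀ (K : Subgroup G) (r : G ⧸ K → G),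
      (∀ x, (r x : G ⧸ K) = x) → ∀ (F : Finset (G ⧸ K)) (k : ℕ), bK K r M k ≠ ⊤ →
        F.card * b M k ≤ (bK K r M k).toReal + C * (rim S F).ncard) ∧
    (∀ (K : Subgroup G) (r : G ⧸ K → G), (∀ x, (r x : G ⧸ K) = x) → ∀ j, 2 * (j + 1) ≤ n →
      CyclesSplit K M j → HalfVanishing K r M n) ∧
    (¬ Singer M n → ∃ (S : Finset G) (c : ℝ), 0 < c ∧
      (∀ (H K : Subgroup G) (r : G ⧸ K → G), (∀ x, (r x : G ⧸ K) = x) →
        HalfVanishing K r M n → ∀ F : Finset (G ⧸ H), Lifts S H K F →
          c * F.card ≤ (rim S F).ncard) ∧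
      ∀ (H : Subgroup G) (F : Finset (G ⧸ H)) (N : ℕ) (f : G ⧸ H → Fin N)
        (K : Fin N → Subgroup G) (r : ∀ i, G ⧸ K i → G), (∀ i x, (r i x : G ⧸ K i) = x) →
        (∀ i, HalfVanishing (K i) (r i) M n) →
        (∀ i, Lifts S H (K i) (F.filter fun x => f x = i)) →
          c * F.card ≤
            ({x | x ∈ F ∧ ∃ s ∈ S, s • x ∉ F ∨ f (s • x) ≠ f x} : Set (G ⧸ H)).ncard) ∧
    (∀ H : Subgroup G, CoAmenable H →
      (∀ K : Subgroup G, K ≤ H → K.FG →
        (∃ j, 2 * (j + 1) ≤ n ∧ CyclesSplit K M j) ∨
        ∃ r : G ⧸ K → G, (∀ x, (r x : G ⧸ K) = x) ∧ HalfVanishing K r M n) →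
      Singer M n) := by
  obtain ⟨h1, h2, h3⟩ := main M n hn hM χ D
  refine ⟨h1, h2, h3, fun H hH hsmall => ?_⟩
  by_contra hns
  obtain ⟨S, c, hc, h4, -⟩ := h3 hns
  obtain ⟨F, hF1, hF2⟩ := hH S (c / 2) (by positivity)
  obtain ⟨K, hKH, hKfg, hlift⟩ := exists_lift S F
  obtain ⟨r, hr, hv⟩ : ∃ r : G ⧸ K → G, (∀ x, (r x : G ⧸ K) = x) ∧ HalfVanishing K r M n := by
    rcases hsmall K hKH hKfg with ⟨j, hj, hs⟩ | h
    · exact ⟨Quotient.out, fun x => Quotient.out_eq x,
        h2 K _ (fun x => Quotient.out_eq x) j hj hs⟩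
    · exact h
  have h5 : c * F.card ≤ (rim S F).ncard := h4 H K r hr hv F hlift
  have h6 : ((rim S F).ncard : ℝ) ≤ c / 2 * F.card := hF2
  have h7 : (0 : ℝ) < F.card := by exact_mod_cast hF1.card_pos
  nlinarith

end Pool.Agent.Results.MP_f80465_gt.DomainsInCoverings
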