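import Pool.Agent.H20.SK.Ads

/-!
# The sign of the Euler characteristic of maximal hypersurfaces of anti-de Sitter manifolds

Let `n = 2 m`. A maximal spacelike hypersurface `M` of dimension `n` of a Lorentzian manifold of
constant curvature `-1` has, by the Gauss equation, the curvature tensor
`R(x,y,z,w) = -((g(x,z) g(y,w) - g(x,w) g(y,z)) + (A(x,z) A(y,w) - A(x,w) A(y,z)))`,
where the second fundamental form `A` has trace zero. If `|A| ^ 2 ≤ n`, then `(-1)^m` times the
Gauss–Bonnet–Chern integrand is at least `(1 - |A| ^ 2 / n) ^ m` times the absolute value of the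
integrand for curvature `-1`; in particular it is nonnegative, and positive if `|A| ^ 2 < n`. The
bound `n` is sharp (products of two hyperbolic spaces of odd dimensions are maximal hypersurfaces
with `|A| ^ 2 = n` and Euler form zero). By a theorem of Ishihara `|A| ^ 2 ≤ n` holds for all complete
maximal spacelike hypersurfaces of the anti-de Sitter space, in particular for all closed ones in
quotients. The sectional curvature `-1 - λ_i λ_j` may be positive.

The theorem holds more generally with any positive definite form `h` in the place of `g` (the norm
and the trace of `A` are then taken with respect to `h`, and the lower bound is multiplied by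
`det h`): this is the Gauss equation of spacelike submanifolds of codimension two of flat
pseudo-Riemannian manifolds with negative definite normal spaces.

Definitions: `MaxGauss`, `formSq`, `MaximalWith` in `Pool/Agent/H20/SK/Ads.lean`; `gbc`, `roundGB` in
`Pool/Graph/R_seed8/W666/GB/Lift.lean`, `CurvField` in `Pool/Graph/R_seed8/W666/GB/Main.lean`.

The proof: the integrand is, up to a constant, the expected determinant of `y + x A` for independent
normal variables `x`, `y` (`Wick2.lean`), that is the sum over the perfect matchings of the products
of the `1 + λ_i λ_j`. On the sphere `∑ λ_i = 0`, `∑ λ_i ^ 2 = c` this sum is minimal at a point with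
only two values `λ_i`, because for three of the variables it is an affine function of their
product; there `1 + λ_i λ_j ≥ 1 - c / n` for all pairs (`Match.lean`).
-/

set_option autoImplicit false

namespace Pool.Agent.Results.MP_f80465_gt.MaximalSpacelikeHypersurfaces

open MeasureTheory Pool.Agent.W666.GB Pool.Agent.H20.SK

theorem result :
    -- the pointwise estimate
    (∀ (m : ℕ) (V : Type) [NormedAddCommGroup V] [InnerProductSpace ℝ V]
      (e : OrthonormalBasis (Fin m × Bool) ℝ V) (R : V → V → V → V → ℝ) (h A : V → V → ℝ)
      (b : Module.Basis (Fin m × Bool) ℝ V), m ≠ 0 → MaxGauss b R h A → formSq b A ≤ 2 * m →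
      (1 - formSq b A / (2 * m)) ^ m * (roundGB m 1 / (e.toBasis.det b) ^ 2) ≤
        (-1) ^ m * gbc e R) ∧
    -- the integrated form
    (∀ (m : ℕ) (M : Type) [MeasurableSpace M] (μ : Measure M) (K : CurvField m M), m ≠ 0 →
      Integrable K.gb μ → (∀ x, ∃ c ≤ (2 * m : ℝ), MaximalWith (m := m) (K.R x) c) →
      0 ≤ (-1) ^ m * ∫ x, K.gb x ∂μ ∧
        ∀ S : Set M, μ S ≠ 0 → (∀ x ∈ S, ∃ c < (2 * m : ℝ), MaximalWith (m := m) (K.R x) c) →
          0 < (-1) ^ m * ∫ x, K.gb x ∂μ) := by
  refine ⟨?_, ?_⟩
  · intro m V _ _ e R h A b hm H hA
    exact max_point hm e H hA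
  · intro m M _ μ K hm hi h
    exact max_field hm μ K hi h

end Pool.Agent.Results.MP_f80465_gt.MaximalSpacelikeHypersurfaces
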