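import Pool.Agent.H20.SK.GaussW

/-!
# Q2 for Gauss equations with second fundamental form in a narrow cone, in any codimension

Let `n = 2 m` and let `M` be a spacelike submanifold of dimension `n` and codimension `N` of a flat
pseudo-Riemannian manifold, with negative definite normal spaces. By the Gauss equation its
curvature tensor is
`R(x,y,z,w) = -(⟨II(x,z), II(y,w)⟩ - ⟨II(x,w), II(y,z)⟩)`, where `⟨ , ⟩` is minus the inner product
of the normal space. Suppose that at every point there is a unit normal vector `ν` such that all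
the vectors `II(u,u)`, `u ≠ 0`, lie in the circular cone
`‖y‖ ^ 2 ≤ (1 + η) ⟨y, ν⟩ ^ 2`, `⟨y, ν⟩ > 0`, with `η ≤ 1 / 144` (half aperture `arctan (√η)`).
Then `(-1)^m` times the Gauss–Bonnet–Chern integrand is at least `(1 / 2) (1 - 4 √η) ^ (2 m)` times
the absolute value of the integrand for curvature `-1`, times the determinant of the form
`⟨II( , ), ν⟩`, in particular positive. Neither the bound on the aperture nor the estimate depends on
the dimension or on the codimension.

Definitions: `ConeII`, `formDet`, `FieldConeII` in `Pool/Agent/H20/SK/GaussW.lean`; `gbc`, `roundGB` in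
`Pool/Graph/R_seed8/W666/GB/Lift.lean`, `CurvField` in `Pool/Graph/R_seed8/W666/GB/Main.lean`.

The proof: in a basis which is orthonormal for `⟨II( , ), ν⟩` the integrand is, up to a constant, the
expected determinant of the Gaussian matrix `y + ∑ q, x_q B_q` (`Wick2.lean`), where the `B_q` are
the other components of `II` and `∑ q, (uᵀ B_q u) ^ 2 ≤ η |u| ^ 4`; a moment estimate for the norm
of a Gaussian matrix (`Op.lean`, `Bound.lean`) bounds it from below.
-/

set_option autoImplicit false

namespace Pool.Agent.Results.MP_f80465_gt.NarrowSecondFundamentalForm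

open MeasureTheory Pool.Agent.W666.GB Pool.Agent.H20.SK

theorem result :
    -- the pointwise estimate
    (∀ (m : ℕ) (V W : Type) [NormedAddCommGroup V] [InnerProductSpace ℝ V]
      [NormedAddCommGroup W] [InnerProductSpace ℝ W] [FiniteDimensional ℝ W]
      (e : OrthonormalBasis (Fin m × Bool) ℝ V) (R : V → V → V → V → ℝ)
      (II : V → V → W) (ν : W) (η : ℝ),
      m ≠ 0 → 0 ≤ η → η ≤ 1 / 144 → ConeII R II ν η →
      0 < formDet e II ν ∧
      1 / 2 * (1 - 4 * √η) ^ (2 * m) * (roundGB m 1 * formDet e II ν) ≤ (-1) ^ m * gbc e R) ∧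
    -- the integrated form
    (∀ (m : ℕ) (M : Type) [MeasurableSpace M] (μ : Measure M) (K : CurvField m M), m ≠ 0 →
      μ ≠ 0 → Integrable K.gb μ → FieldConeII K (1 / 144) →
      0 < (-1) ^ m * ∫ x, K.gb x ∂μ) := by
  refine ⟨?_, ?_⟩
  · intro m V W _ _ _ _ _ e R II ν η hm hη hη2 h
    exact coneII_point hm e h hη hη2
  · intro m M _ μ K hm hμ hi h
    exact coneII_field_pos hm μ hμ K hi h

end Pool.Agent.Results.MP_f80465_gt.NarrowSecondFundamentalForm
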