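import Pool.Agent.H20.SK.Main

/-!
# Q2 under dimension-free pinching of the curvature operator of the second kind

Let `n = 2 m`. At a point of a Riemannian `n`-manifold let `b` be any basis of the tangent space
(not necessarily orthonormal), and compute with the auxiliary inner product for which `b` is
orthonormal. If the curvature operator of the second kind is at least `-(1 + δ)` on the symmetric
matrices of trace zero, and the Ricci curvature lies between `-(1 + p) (n - 1)` and
`-(1 - ε) (n - 1)`, where `τ = (32 δ + 160 p + 192 ε) / 3` is at most `1 / 2`, then `(-1)^m` times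
the Gauss–Bonnet–Chern integrand is at least `(1 / 2) (1 - τ)^m` times its value for constant
curvature, in particular positive. The lower Ricci bound holds with `p = δ` automatically (and is
not assumed in that case), so `δ + ε ≤ 1 / 128` is enough; for Einstein metrics (`p = ε = 0`)
`δ ≤ 3 / 64` is enough. The constants do not depend on the dimension.

Definitions: `SecondKindGE`, `RicciGE`, `RicciLE`, `Pinched` in `Pool/Agent/H20/SK/Main.lean`;
`AlgCurv`, `gbc`, `roundGB` in `Pool/Graph/R_seed8/W666/GB/Lift.lean`, `CurvField` in
`Pool/Graph/R_seed8/W666/GB/Main.lean`.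

The proof: `-R` is written as the sum of a multiple (at least one) of the tensor of constant
curvature one and of the Gauss tensors of symmetric matrices `B_q` of trace zero with
`∑ q, (uᵀ B_q u)² ≤ η |u|⁴` (`Rep.lean`); so the integrand is, up to a constant, the expected
determinant of the Gaussian matrix `y + ∑ q, x_q B_q` (`Wick2.lean`), which is bounded below by a
moment estimate of the norm of a Gaussian matrix (`Op.lean`, `Bound.lean`).
-/

set_option autoImplicit false

namespace Pool.Agent.Results.MP_f80465_gt.SecondKindPinching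

open MeasureTheory Pool.Agent.W666.GB Pool.Agent.H20.SK

theorem result :
    -- the pointwise estimate
    (∀ (m : ℕ) (V : Type) [NormedAddCommGroup V] [InnerProductSpace ℝ V]
      (e : OrthonormalBasis (Fin m × Bool) ℝ V) (R : V → V → V → V → ℝ)
      (b : Module.Basis (Fin m × Bool) ℝ V) (δ p ε : ℝ), m ≠ 0 → AlgCurv R →
      Pinched b R δ p ε → 32 * δ + 160 * p + 192 * ε ≤ 3 / 2 →
      1 / 2 * (1 - (32 * δ + 160 * p + 192 * ε) / 3) ^ m *
        (roundGB m 1 / (e.toBasis.det b) ^ 2) ≤ (-1) ^ m * gbc e R) ∧
    -- the integrated form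
    (∀ (m : ℕ) (M : Type) [MeasurableSpace M] (μ : Measure M) (K : CurvField m M), m ≠ 0 →
      μ ≠ 0 → Integrable K.gb μ →
      (∀ x, ∃ (b : Module.Basis (Fin m × Bool) ℝ (K.V x)) (δ p ε : ℝ),
        Pinched b (K.R x) δ p ε ∧ 32 * δ + 160 * p + 192 * ε ≤ 3 / 2) →
      0 < (-1) ^ m * ∫ x, K.gb x ∂μ) := by
  refine ⟨?_, ?_⟩
  · intro m V _ _ e R b δ p ε hm hR h hs
    exact point hm e hR b h hs
  · intro m M _ μ K hm hμ hi h
    exact field_pos hm μ hμ K hi h

end Pool.Agent.Results.MP_f80465_gt.SecondKindPinching
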